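import Mathlib
import Pool.Agent.Helper87.SL.Goals

set_option autoImplicit false

open Finset

namespace Pool.Agent.Helper93.SL

open Pool.Agent.Helper87.SL

lemma swap5 (q n : ℕ) (G : ℕ → ℕ → ℕ → ℕ → ℕ → ℕ) :
    ∑ a ∈ range q, ∑ b ∈ range q, ∑ i ∈ range n, ∑ j ∈ range n, ∑ e ∈ range 2, G a b i j e
      = ∑ e ∈ range 2, ∑ i ∈ range n, ∑ j ∈ range n, ∑ a ∈ range q, ∑ b ∈ range q,
          G a b i j e := by
  calc ∑ a ∈ range q, ∑ b ∈ range q, ∑ i ∈ range n, ∑ j ∈ range n, ∑ e ∈ range 2, G a b i j e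
      = ∑ a ∈ range q, ∑ b ∈ range q, ∑ e ∈ range 2, ∑ i ∈ range n, ∑ j ∈ range n,
          G a b i j e := by
        refine sum_congr rfl fun a _ => sum_congr rfl fun b _ => ?_
        rw [sum_comm' (s := range 2) (t := fun _ => range n) (t' := range n)
          (s' := fun _ => range 2) (by intros; tauto)]
        refine sum_congr rfl fun i _ => ?_
        rw [sum_comm]
    _ = ∑ a ∈ range q, ∑ e ∈ range 2, ∑ b ∈ range q, ∑ i ∈ range n, ∑ j ∈ range n,
          G a b i j e := by
        refine sum_congr rfl fun a _ => ?_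
        rw [sum_comm]
    _ = ∑ e ∈ range 2, ∑ a ∈ range q, ∑ b ∈ range q, ∑ i ∈ range n, ∑ j ∈ range n,
          G a b i j e := by
        rw [sum_comm]
    _ = ∑ e ∈ range 2, ∑ i ∈ range n, ∑ a ∈ range q, ∑ b ∈ range q, ∑ j ∈ range n,
          G a b i j e := by
        refine sum_congr rfl fun e _ => ?_
        calc ∑ a ∈ range q, ∑ b ∈ range q, ∑ i ∈ range n, ∑ j ∈ range n, G a b i j e
            = ∑ a ∈ range q, ∑ i ∈ range n, ∑ b ∈ range q, ∑ j ∈ range n, G a b i j e := by
              refine sum_congr rfl fun a _ => ?_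
              rw [sum_comm]
          _ = _ := by rw [sum_comm]
    _ = ∑ e ∈ range 2, ∑ i ∈ range n, ∑ j ∈ range n, ∑ a ∈ range q, ∑ b ∈ range q,
          G a b i j e := by
        refine sum_congr rfl fun e _ => sum_congr rfl fun i _ => ?_
        calc ∑ a ∈ range q, ∑ b ∈ range q, ∑ j ∈ range n, G a b i j e
            = ∑ a ∈ range q, ∑ j ∈ range n, ∑ b ∈ range q, G a b i j e := by
              refine sum_congr rfl fun a _ => ?_
              rw [sum_comm]
          _ = _ := by rw [sum_comm]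

/-- the change of variables `a ↔ u`. -/
lemma shiftsum (q t : ℕ) (hq : 1 ≤ q) (g : ℕ → ℕ) :
    ∑ a ∈ range q, g a = ∑ u ∈ range q, g ((t + 1 + u) % q) := by
  symm
  refine sum_nbij' (fun u => (t + 1 + u) % q) (fun a => (a + (q - 1) * (t + 1)) % q) ?_ ?_ ?_ ?_ ?_
  · intro u _
    simp only [mem_range]
    exact Nat.mod_lt _ (by omega)
  · intro u _
    simp only [mem_range]
    exact Nat.mod_lt _ (by omega)
  · intro u hu
    simp only [mem_range] at hu
    have h1 : ((t + 1 + u) % q + (q - 1) * (t + 1)) % q = (u + q * (t + 1)) % q := by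
      rw [Nat.mod_add_mod]
      congr 1
      obtain ⟨r, rfl⟩ : ∃ r, q = r + 1 := ⟨q - 1, by omega⟩
      simp only [Nat.add_sub_cancel]
      ring
    simp only [h1, Nat.add_mul_mod_self_left]
    exact Nat.mod_eq_of_lt hu
  · intro a ha
    simp only [mem_range] at ha
    have h1 : (t + 1 + (a + (q - 1) * (t + 1)) % q) % q = (a + q * (t + 1)) % q := by
      rw [Nat.add_mod_mod]
      congr 1
      obtain ⟨r, rfl⟩ : ∃ r, q = r + 1 := ⟨q - 1, by omega⟩
      simp only [Nat.add_sub_cancel]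
      ring
    simp only [h1, Nat.add_mul_mod_self_left]
    exact Nat.mod_eq_of_lt ha
  · intro u _
    rfl

lemma mu_shift (q t u : ℕ) (hq : 1 ≤ q) (hu : u < q) : mu q ((t + 1 + u) % q) t = t + 1 + u := by
  unfold mu
  have h1 : ((t + 1 + u) % q + (q - 1) * (t + 1)) % q = (u + q * (t + 1)) % q := by
    rw [Nat.mod_add_mod]
    congr 1
    obtain ⟨r, rfl⟩ : ∃ r, q = r + 1 := ⟨q - 1, by omega⟩
    simp only [Nat.add_sub_cancel]
    ring
  rw [h1, Nat.add_mul_mod_self_left, Nat.mod_eq_of_lt hu]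

lemma mu_add (q t w : ℕ) (hq : 1 ≤ q) :
    mu q ((t + 1 + w) % q) t = t + 1 + w % q := by
  unfold mu
  have h1 : ((t + 1 + w) % q + (q - 1) * (t + 1)) % q = (w + q * (t + 1)) % q := by
    rw [Nat.mod_add_mod]
    congr 1
    obtain ⟨r, rfl⟩ : ∃ r, q = r + 1 := ⟨q - 1, by omega⟩
    simp only [Nat.add_sub_cancel]
    ring
  rw [h1, Nat.add_mul_mod_self_left]

/-- pairs with a sum in a window. -/
lemma window (n q : ℕ) (hqn : q ≤ n) (S : Finset (ℕ × ℕ))
    (hS : ∀ p ∈ S, p.1 ≤ n + q ∧ 1 ≤ p.1 ∧ n < p.1 + p.2 ∧ p.1 + p.2 ≤ n + 2 * q) :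
    S.card ≤ 6 * q * n := by
  have h1 : S.card ≤ ((Icc 1 (n + q)) ×ˢ (Ioc n (n + 2 * q))).card := by
    refine card_le_card_of_injOn (fun p => (p.1, p.1 + p.2)) ?_ ?_
    · intro p hp
      have := hS p (by simpa using hp)
      simp only [coe_product, Set.mem_prod, coe_Icc, coe_Ioc, Set.mem_Icc, Set.mem_Ioc]
      omega
    · intro p _ p' _ h
      simp only [Prod.mk.injEq] at h
      ext
      · exact h.1
      · omega
  have h2 : ((Icc 1 (n + q)) ×ˢ (Ioc n (n + 2 * q))).card = (n + q) * (2 * q) := by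
    rw [card_product]
    simp
  rw [h2] at h1
  calc S.card ≤ (n + q) * (2 * q) := h1
    _ ≤ (n + n) * (2 * q) := Nat.mul_le_mul_right _ (by omega)
    _ ≤ 6 * q * n := by nlinarith

lemma inner {k : ℕ} (χ : ℕ → Fin k) (n q u v e : ℕ) (hq : 1 ≤ q) (hqn : q ≤ n)
    (hu : u < q) (hv : v < q) (he : e < 2) :
    ∑ i ∈ range n, ∑ j ∈ range n,
      (if i + j + e < n ∧ χ (i + 1 + u) = χ (j + 1 + v) ∧
          χ (j + 1 + v) = χ (mu q (((i + 1 + u) % q + (j + 1 + v) % q) % q) (i + j + e))
        then 1 else 0) ≤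
      (if u + v + 1 < q + e then ordP χ n 0 else ordP χ n q) + 6 * q * n := by
  classical
  rw [← sum_product' (range n) (range n) (fun i j =>
      (if i + j + e < n ∧ χ (i + 1 + u) = χ (j + 1 + v) ∧
          χ (j + 1 + v) = χ (mu q (((i + 1 + u) % q + (j + 1 + v) % q) % q) (i + j + e))
        then 1 else 0)), ← card_filter]
  set T := (range n ×ˢ range n).filter (fun p => p.1 + p.2 + e < n ∧
      χ (p.1 + 1 + u) = χ (p.2 + 1 + v) ∧
          χ (p.2 + 1 + v) =
            χ (mu q (((p.1 + 1 + u) % q + (p.2 + 1 + v) % q) % q) (p.1 + p.2 + e))) with hT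
  set S := T.image (fun p => (p.1 + 1 + u, p.2 + 1 + v)) with hS
  have hcard : T.card = S.card := by
    rw [hS, card_image_of_injective]
    intro p p' h
    simp only [Prod.mk.injEq] at h
    ext <;> omega
  have hmu : ∀ i j : ℕ, mu q (((i + 1 + u) % q + (j + 1 + v) % q) % q) (i + j + e)
      = i + j + e + 1 + (u + v + 1 - e) % q := by
    intro i j
    rw [← Nat.add_mod]
    rw [← mu_add q (i + j + e) (u + v + 1 - e) hq]
    congr 2
    omega
  have hmem : ∀ p ∈ S, ∃ i j : ℕ, p = (i + 1 + u, j + 1 + v) ∧ i < n ∧ j < n ∧ i + j + e < n ∧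
      χ (i + 1 + u) = χ (j + 1 + v) ∧
        χ (j + 1 + v) = χ (i + j + e + 1 + (u + v + 1 - e) % q) := by
    intro p hp
    rw [hS, mem_image] at hp
    obtain ⟨x, hx, rfl⟩ := hp
    rw [hT, mem_filter, mem_product, mem_range, mem_range, hmu] at hx
    exact ⟨x.1, x.2, rfl, hx.1.1, hx.1.2, hx.2.1, hx.2.2.1, hx.2.2.2⟩
  have hsplit : S.card = (S.filter (fun p => p.1 + p.2 ≤ n)).card +
      (S.filter (fun p => ¬ (p.1 + p.2 ≤ n))).card :=
    (card_filter_add_card_filter_not _).symm
  have hfar : (S.filter (fun p => ¬ (p.1 + p.2 ≤ n))).card ≤ 6 * q * n := by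
    apply window n q hqn
    intro p hp
    rw [mem_filter] at hp
    obtain ⟨i, j, rfl, h1, h2, h3, -, -⟩ := hmem p hp.1
    have := hp.2
    simp only at this ⊢
    omega
  have hnear : (S.filter (fun p => p.1 + p.2 ≤ n)).card ≤
      (if u + v + 1 < q + e then ordP χ n 0 else ordP χ n q) := by
    split_ifs with hw
    · unfold ordP
      apply card_le_card
      intro p hp
      rw [mem_filter] at hp
      obtain ⟨i, j, rfl, h1, h2, h3, h4, h5⟩ := hmem p hp.1
      have h6 := hp.2
      simp only at h6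
      have h7 : (u + v + 1 - e) % q = u + v + 1 - e := Nat.mod_eq_of_lt (by omega)
      rw [h7] at h5
      rw [mem_filter, mem_product, mem_Icc, mem_Icc]
      refine ⟨⟨⟨by simp only; omega, by simp only; omega⟩, ⟨by simp only; omega,
        by simp only; omega⟩⟩, by simp only; omega, by simp only; omega, h4, ?_⟩
      simp only
      rw [h5]
      congr 1
      omega
    · unfold ordP
      apply card_le_card
      intro p hp
      rw [mem_filter] at hp
      obtain ⟨i, j, rfl, h1, h2, h3, h4, h5⟩ := hmem p hp.1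
      have h6 := hp.2
      simp only at h6
      have h7 : (u + v + 1 - e) % q = u + v + 1 - e - q := by
        rw [Nat.mod_eq_sub_mod (by omega)]
        exact Nat.mod_eq_of_lt (by omega)
      rw [h7] at h5
      rw [mem_filter, mem_product, mem_Icc, mem_Icc]
      refine ⟨⟨⟨by simp only; omega, by simp only; omega⟩, ⟨by simp only; omega,
        by simp only; omega⟩⟩, by simp only; omega, by simp only; omega, h4, ?_⟩
      simp only
      rw [h5]
      congr 1
      omega
  omega

lemma tri (q : ℕ) :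
    (∑ u ∈ range q, ∑ v ∈ range q, (if u + v + 1 < q then 1 else 0)) +
      (∑ u ∈ range q, ∑ v ∈ range q, (if u + v < q then 1 else 0)) = q ^ 2 := by
  have h1 : (∑ u ∈ range q, ∑ v ∈ range q, (if u + v < q then 1 else 0)) =
      ∑ u ∈ range q, ∑ v ∈ range q, (if u + v + 1 < q then 0 else 1) := by
    rw [← sum_range_reflect]
    refine sum_congr rfl fun u hu => ?_
    rw [← sum_range_reflect]
    refine sum_congr rfl fun v hv => ?_
    rw [mem_range] at hu hv
    split_ifs <;> omega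
  rw [h1, ← sum_add_distrib]
  have h2 : ∀ u ∈ range q, (∑ v ∈ range q, (if u + v + 1 < q then 1 else 0)) +
      ∑ v ∈ range q, (if u + v + 1 < q then 0 else 1) = q := by
    intro u _
    rw [← sum_add_distrib]
    have : ∀ v ∈ range q, ((if u + v + 1 < q then 1 else 0) + (if u + v + 1 < q then 0 else 1))
        = 1 := by
      intro v _
      split_ifs <;> rfl
    rw [sum_congr rfl this]
    simp
  rw [sum_congr rfl h2]
  simp [sq]

theorem gDBL : G_DBL := by
  intro k n q χ hq hqn
  have h1 : cnt q n (fun a t => χ (mu q a t)) =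
      ∑ e ∈ range 2, ∑ u ∈ range q, ∑ v ∈ range q, ∑ i ∈ range n, ∑ j ∈ range n,
      (if i + j + e < n ∧ χ (i + 1 + u) = χ (j + 1 + v) ∧
          χ (j + 1 + v) = χ (mu q (((i + 1 + u) % q + (j + 1 + v) % q) % q) (i + j + e))
        then 1 else 0) := by
    unfold cnt
    rw [swap5 q n (fun a b i j e => if i + j + e < n ∧ χ (mu q a i) = χ (mu q b j) ∧
      χ (mu q b j) = χ (mu q ((a + b) % q) (i + j + e)) then 1 else 0)]
    refine sum_congr rfl fun e _ => ?_
    have h2 : ∀ i ∈ range n, ∀ j ∈ range n,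
        (∑ a ∈ range q, ∑ b ∈ range q, if i + j + e < n ∧ χ (mu q a i) = χ (mu q b j) ∧
          χ (mu q b j) = χ (mu q ((a + b) % q) (i + j + e)) then 1 else 0) =
        ∑ u ∈ range q, ∑ v ∈ range q, (if i + j + e < n ∧ χ (i + 1 + u) = χ (j + 1 + v) ∧
          χ (j + 1 + v) = χ (mu q (((i + 1 + u) % q + (j + 1 + v) % q) % q) (i + j + e))
        then 1 else 0) := by
      intro i _ j _
      rw [shiftsum q i hq]
      refine sum_congr rfl fun u hu => ?_
      rw [shiftsum q j hq]
      refine sum_congr rfl fun v hv => ?_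
      rw [mem_range] at hu hv
      rw [mu_shift q i u hq hu, mu_shift q j v hq hv]
    calc _ = ∑ i ∈ range n, ∑ j ∈ range n, ∑ u ∈ range q, ∑ v ∈ range q,
        (if i + j + e < n ∧ χ (i + 1 + u) = χ (j + 1 + v) ∧
          χ (j + 1 + v) = χ (mu q (((i + 1 + u) % q + (j + 1 + v) % q) % q) (i + j + e))
        then 1 else 0) := sum_congr rfl fun i hi => sum_congr rfl fun j hj => h2 i hi j hj
      _ = ∑ i ∈ range n, ∑ u ∈ range q, ∑ j ∈ range n, ∑ v ∈ range q,
        (if i + j + e < n ∧ χ (i + 1 + u) = χ (j + 1 + v) ∧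
          χ (j + 1 + v) = χ (mu q (((i + 1 + u) % q + (j + 1 + v) % q) % q) (i + j + e))
        then 1 else 0) := sum_congr rfl fun i _ => by rw [sum_comm]
      _ = ∑ u ∈ range q, ∑ i ∈ range n, ∑ j ∈ range n, ∑ v ∈ range q,
        (if i + j + e < n ∧ χ (i + 1 + u) = χ (j + 1 + v) ∧
          χ (j + 1 + v) = χ (mu q (((i + 1 + u) % q + (j + 1 + v) % q) % q) (i + j + e))
        then 1 else 0) := by rw [sum_comm]
      _ = ∑ u ∈ range q, ∑ i ∈ range n, ∑ v ∈ range q, ∑ j ∈ range n,
        (if i + j + e < n ∧ χ (i + 1 + u) = χ (j + 1 + v) ∧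
          χ (j + 1 + v) = χ (mu q (((i + 1 + u) % q + (j + 1 + v) % q) % q) (i + j + e))
        then 1 else 0) := sum_congr rfl fun u _ => sum_congr rfl fun i _ => by rw [sum_comm]
      _ = _ := sum_congr rfl fun u _ => by rw [sum_comm]
  rw [h1]
  have h3 : ∀ e ∈ range 2, ∀ u ∈ range q, ∀ v ∈ range q,
      (∑ i ∈ range n, ∑ j ∈ range n,
      (if i + j + e < n ∧ χ (i + 1 + u) = χ (j + 1 + v) ∧
          χ (j + 1 + v) = χ (mu q (((i + 1 + u) % q + (j + 1 + v) % q) % q) (i + j + e))
        then 1 else 0)) ≤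
      (if u + v + 1 < q + e then ordP χ n 0 else ordP χ n q) + 6 * q * n := by
    intro e he u hu v hv
    rw [mem_range] at he hu hv
    exact inner χ n q u v e hq hqn hu hv he
  refine le_trans (sum_le_sum fun e he => sum_le_sum fun u hu => sum_le_sum fun v hv =>
    h3 e he u hu v hv) ?_
  rw [sum_range_succ, sum_range_one]
  have h4 : ∀ e : ℕ, e < 2 → ∑ u ∈ range q, ∑ v ∈ range q,
      ((if u + v + 1 < q + e then ordP χ n 0 else ordP χ n q) + 6 * q * n) =
      (∑ u ∈ range q, ∑ v ∈ range q, (if u + v + 1 < q + e then 1 else 0)) * ordP χ n 0 +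
      (∑ u ∈ range q, ∑ v ∈ range q, (if u + v + 1 < q + e then 0 else 1)) * ordP χ n q +
      q ^ 2 * (6 * q * n) := by
    intro e _
    rw [sum_mul, sum_mul]
    have : q ^ 2 * (6 * q * n) = ∑ u ∈ range q, ∑ v ∈ range q, 6 * q * n := by
      simp [sq, mul_assoc]
    rw [this, ← sum_add_distrib, ← sum_add_distrib]
    refine sum_congr rfl fun u _ => ?_
    rw [sum_mul, sum_mul, ← sum_add_distrib, ← sum_add_distrib]
    refine sum_congr rfl fun v _ => ?_
    split_ifs <;> simp
  rw [h4 0 (by norm_num), h4 1 (by norm_num)]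
  have h5 : ∀ e : ℕ, (∑ u ∈ range q, ∑ v ∈ range q, (if u + v + 1 < q + e then 1 else 0)) +
      (∑ u ∈ range q, ∑ v ∈ range q, (if u + v + 1 < q + e then 0 else 1)) = q ^ 2 := by
    intro e
    rw [← sum_add_distrib]
    have : ∀ u ∈ range q, (∑ v ∈ range q, (if u + v + 1 < q + e then 1 else 0)) +
      ∑ v ∈ range q, (if u + v + 1 < q + e then 0 else 1) = q := by
      intro u _
      rw [← sum_add_distrib]
      have : ∀ v ∈ range q, ((if u + v + 1 < q + e then 1 else 0) +
          (if u + v + 1 < q + e then 0 else 1)) = 1 := by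
        intro v _
        split_ifs <;> rfl
      rw [sum_congr rfl this]
      simp
    rw [sum_congr rfl this]
    simp [sq]
  have h6 := h5 0
  have h7 := h5 1
  have h8 := tri q
  have h9 : (∑ u ∈ range q, ∑ v ∈ range q, (if u + v + 1 < q + 1 then 1 else 0)) =
      (∑ u ∈ range q, ∑ v ∈ range q, (if u + v < q then 1 else 0)) := by
    refine sum_congr rfl fun u _ => sum_congr rfl fun v _ => ?_
    split_ifs <;> omega
  simp only [Nat.add_zero] at h6 ⊢
  rw [← h9] at h8
  generalize (∑ u ∈ range q, ∑ v ∈ range q, (if u + v + 1 < q then 1 else 0)) = A at *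
  generalize (∑ u ∈ range q, ∑ v ∈ range q, (if u + v + 1 < q then 0 else 1)) = A' at *
  generalize (∑ u ∈ range q, ∑ v ∈ range q, (if u + v + 1 < q + 1 then 1 else 0)) = B at *
  generalize (∑ u ∈ range q, ∑ v ∈ range q, (if u + v + 1 < q + 1 then 0 else 1)) = B' at *
  have h10 : A' = B := by omega
  have h11 : B' = A := by omega
  subst h10 h11
  have h12 : q ^ 2 * (6 * q * n) + q ^ 2 * (6 * q * n) = 12 * q ^ 3 * n := by ring
  nlinarith [h12, h8]

end Pool.Agent.Helper93.SL
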